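import Pool.Agent.MGP.Stmts

/-!
# Squad MGP, row SEP (helper70): separation of the corner intervals
-/

set_option autoImplicit false

namespace Pool.Agent.MGP.H70

/-- the bounds for `t^2 - h^2` in integers -/
theorem sc_z {σ K t h : ℕ} (hS : Sc σ K t h) :
    (σ : ℤ) + 1 ≤ (t : ℤ) ^ 2 - (h : ℤ) ^ 2 ∧ (t : ℤ) ^ 2 - (h : ℤ) ^ 2 ≤ σ + 4 * h + 3 ∧
      (K : ℤ) ≤ h + 1 ∧ 25 * (h : ℤ) ≤ 29 * K := by
  obtain ⟨_, h1, h2, h3, h4⟩ := hS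
  have a1 : (h : ℤ) ^ 2 + σ + 1 ≤ (t : ℤ) ^ 2 := by exact_mod_cast h1
  have a2 : (t : ℤ) ^ 2 + 1 ≤ ((h : ℤ) + 2) ^ 2 + σ := by exact_mod_cast h2
  have a3 : (K : ℤ) ≤ h + 1 := by exact_mod_cast h3
  have a4 : 25 * (h : ℤ) ≤ 29 * K := by exact_mod_cast h4
  refine ⟨by linarith, ?_, a3, a4⟩
  have e : ((h : ℤ) + 2) ^ 2 = (h : ℤ) ^ 2 + 4 * h + 4 := by ring
  rw [e] at a2
  linarith

theorem sep (hP : PrbStmt) : SepStmt := by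
  intro N z H E σ K K' t t' h h' hPar hNσ hHK' hK'K hK8 hzt' htt' hS hS'
  obtain ⟨b1, -, -, -⟩ := hP N z H E hPar
  have hH : 1000 ≤ H := hPar.2.2.2.2.2.1
  obtain ⟨s1, s2, s3, s4⟩ := sc_z hS
  obtain ⟨s1', s2', s3', s4'⟩ := sc_z hS'
  have c1 : (34000 : ℤ) * H ≤ z := by exact_mod_cast b1
  have c2 : (1000 : ℤ) ≤ H := by exact_mod_cast hH
  have c3 : (H : ℤ) ≤ K' := by exact_mod_cast hHK'
  have c4 : 2 * (K' : ℤ) ≤ K := by exact_mod_cast hK'K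
  have c5 : (K : ℤ) ≤ 8 * H := by exact_mod_cast hK8
  have c6 : (z : ℤ) ≤ t' := by exact_mod_cast hzt'
  have c7 : (t' : ℤ) ≤ t := by exact_mod_cast htt'
  have hh0 : (0 : ℤ) ≤ h := Int.natCast_nonneg h
  have hh0' : (0 : ℤ) ≤ h' := Int.natCast_nonneg h'
  have hKpos : (2000 : ℤ) ≤ K := by linarith
  -- the bound for `t - t'`
  have d1 : ((t : ℤ) - t') * (t + t') ≤ ((h : ℤ) + 2) ^ 2 := by
    have e : ((t : ℤ) - t') * (t + t') = (t : ℤ) ^ 2 - (t' : ℤ) ^ 2 := by ring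
    have e2 : ((h : ℤ) + 2) ^ 2 = (h : ℤ) ^ 2 + 4 * h + 4 := by ring
    have e3 : (0 : ℤ) ≤ (h' : ℤ) ^ 2 := by positivity
    rw [e, e2]
    linarith
  have d0 : (0 : ℤ) ≤ (t : ℤ) - t' := by linarith
  have d2 : ((t : ℤ) - t') * (68000 * H) ≤ ((h : ℤ) + 2) ^ 2 := by
    refine le_trans ?_ d1
    apply mul_le_mul_of_nonneg_left _ d0
    linarith
  have d3 : 25 * ((h : ℤ) + 2) ^ 2 ≤ 288 * (H * K) := by
    have e1 : 5 * ((h : ℤ) + 2) ≤ 6 * K := by linarith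
    have e2 : (5 * ((h : ℤ) + 2)) ^ 2 ≤ (6 * K) ^ 2 := by
      apply pow_le_pow_left₀ (by linarith) e1
    have e3 : (K : ℤ) * K ≤ 8 * H * K := by
      apply mul_le_mul_of_nonneg_right c5 (by linarith)
    nlinarith [e2, e3]
  have d4 : (H : ℤ) * (200 * ((t : ℤ) - t')) ≤ H * K := by
    nlinarith [d2, d3, mul_nonneg (show (0 : ℤ) ≤ H by linarith) d0,
      mul_nonneg (show (0 : ℤ) ≤ H by linarith) (show (0 : ℤ) ≤ K by linarith)]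
  have d5 : 200 * ((t : ℤ) - t') ≤ K := le_of_mul_le_mul_left d4 (by linarith)
  have q1 : ((t : ℤ) + h + 20) * (t - h) = ((t : ℤ) ^ 2 - (h : ℤ) ^ 2) + 20 * t - 20 * h := by ring
  have q2 : ((t' : ℤ) + h' + 22) * (t' - h' - 2) =
      ((t' : ℤ) ^ 2 - (h' : ℤ) ^ 2) + 20 * t' - 24 * h' - 44 := by ring
  have q3 : ((t' : ℤ) + h') * (t' - h' + 40) =
      ((t' : ℤ) ^ 2 - (h' : ℤ) ^ 2) + 40 * t' + 40 * h' := by ring
  have q4 : ((t : ℤ) + h + 2) * (t - h + 38) =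
      ((t : ℤ) ^ 2 - (h : ℤ) ^ 2) + 40 * t + 36 * h + 76 := by ring
  have q5 : ((t' : ℤ) + h' + 20) * (t' - h' + 40) =
      ((t' : ℤ) ^ 2 - (h' : ℤ) ^ 2) + 60 * t' + 20 * h' + 800 := by ring
  have q6 : ((t : ℤ) + h + 22) * (t - h + 38) =
      ((t : ℤ) ^ 2 - (h : ℤ) ^ 2) + 60 * t + 16 * h + 836 := by ring
  rw [q1, q2, q3, q4, q5, q6]
  refine ⟨by linarith, by linarith, by linarith⟩

end Pool.Agent.MGP.H70
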